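import Pool.Agent.LAT.StmtsM

/-!
# Squad LAT, row INA: inclusion in the lattice of the instance (helper80)
-/

set_option autoImplicit false

namespace Pool.Agent.LAT.H80

open Matrix Pool.Agent.LAT

/-- the rows of a product -/
theorem mul_row {k n m : ℕ} (X : Matrix (Fin k) (Fin n) ℤ) (A : Matrix (Fin n) (Fin m) ℤ)
    (i : Fin k) : (X * A) i = ∑ l, X i l • A l := by
  funext j
  rw [Matrix.mul_apply, Finset.sum_apply]
  rfl

theorem abs_sum_mul_le {n : ℕ} (f g : Fin n → ℤ) (a b : ℤ) (ha : 0 ≤ a) (hf : ∀ i, |f i| ≤ a)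
    (hg : ∀ i, |g i| ≤ b) : |∑ i, f i * g i| ≤ n * (a * b) := by
  calc |∑ i, f i * g i| ≤ ∑ i, |f i * g i| := Finset.abs_sum_le_sum_abs _ _
    _ ≤ ∑ _i : Fin n, a * b := by
        refine Finset.sum_le_sum fun i _ => ?_
        rw [abs_mul]
        exact mul_le_mul (hf i) (hg i) (abs_nonneg _) ha
    _ = n * (a * b) := by
        rw [Finset.sum_const, Finset.card_univ, Fintype.card_fin, nsmul_eq_mul]

/-- INA -/
theorem ina (pos : PosStmt) : InaStmt := by
  intro k n m B A hA
  refine ⟨?_, ?_, ?_⟩
  · constructor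
    · intro h
      have h1 : ∀ i, ∃ c : Fin n → ℤ, ∑ l, c l • A l = B i := by
        intro i
        have h2 : B i ∈ rows A := h (Submodule.subset_span ⟨i, rfl⟩)
        unfold rows at h2
        exact (Submodule.mem_span_range_iff_exists_fun ℤ).1 h2
      choose c hc using h1
      refine ⟨Matrix.of c, ?_⟩
      funext i
      rw [mul_row, ← hc i]
      rfl
    · rintro ⟨X, hX⟩
      unfold rows
      rw [Submodule.span_le]
      rintro _ ⟨i, rfl⟩
      change B i ∈ Submodule.span ℤ (Set.range fun i => A i)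
      rw [Submodule.mem_span_range_iff_exists_fun ℤ]
      exact ⟨X i, by rw [hX, mul_row]⟩
  · intro X X' h h'
    funext i
    have h1 : ∑ l, (X i l - X' i l) • A l = 0 := by
      simp only [sub_smul, Finset.sum_sub_distrib]
      rw [← mul_row, ← mul_row, ← h, ← h', sub_self]
    have h2 := Fintype.linearIndependent_iff.1 hA (fun l => X i l - X' i l) h1
    funext l
    exact sub_eq_zero.1 (h2 l)
  · intro a b ha hb hAa hBb X hX i j
    have hm : 1 ≤ m := by
      rcases Nat.eq_zero_or_pos m with h0 | h0
      · subst h0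
        exact absurd (Subsingleton.elim (A j) 0) (hA.ne_zero j)
      · exact h0
    have hm' : (1 : ℤ) ≤ m := by exact_mod_cast hm
    have ha2 : 1 ≤ (m : ℤ) * a ^ 2 := by
      have h1 : 1 ≤ a ^ 2 := one_le_pow₀ ha
      exact one_le_mul_of_one_le_of_one_le hm' h1
    obtain ⟨G, hG⟩ : ∃ G : Matrix (Fin n) (Fin n) ℤ, G = A * Aᵀ := ⟨_, rfl⟩
    have hGg : gram (fun i => A i) = G := by
      rw [hG]
      ext p q
      rfl
    have hdet : 1 ≤ G.det := by
      rw [← hGg]
      exact pos.1 m n _ hA
    have hGe : ∀ p q, |G p q| ≤ m * a ^ 2 := by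
      intro p q
      rw [hG, Matrix.mul_apply, pow_two]
      exact abs_sum_mul_le _ _ a a (by omega) (hAa p) (fun l => hAa q l)
    have hBA : ∀ p q, |(B * Aᵀ) p q| ≤ m * a * b := by
      intro p q
      rw [Matrix.mul_apply]
      have h1 := abs_sum_mul_le (fun l => B p l) (fun l => Aᵀ l q) b a hb (hBb p)
        (fun l => hAa q l)
      calc _ ≤ (m : ℤ) * (b * a) := h1
        _ = _ := by ring
    have hadj : ∀ p q, |G.adjugate p q| ≤ (n.factorial : ℤ) * (m * a ^ 2) ^ n := by
      intro p q
      rw [Matrix.adjugate_apply]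
      have h1 := Matrix.det_le (A := G.updateRow q (Pi.single p 1))
        (abv := (AbsoluteValue.abs : AbsoluteValue ℤ ℤ)) (x := (m : ℤ) * a ^ 2) (by
          intro r s
          change |G.updateRow q (Pi.single p 1) r s| ≤ _
          rw [Matrix.updateRow_apply]
          split_ifs with h
          · rw [Pi.single_apply]
            split_ifs
            · rw [abs_one]
              exact ha2
            · rw [abs_zero]
              omega
          · exact hGe r s)
      rw [Fintype.card_fin, nsmul_eq_mul] at h1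
      exact h1
    have hXG : G.det • X = B * Aᵀ * G.adjugate := by
      have h1 : B * Aᵀ = X * G := by
        rw [hG, hX, Matrix.mul_assoc]
      rw [h1, Matrix.mul_assoc, Matrix.mul_adjugate, Matrix.mul_smul, Matrix.mul_one]
    have hXe : G.det * X i j = ∑ l, (B * Aᵀ) i l * G.adjugate l j := by
      have h1 := congrFun (congrFun hXG i) j
      rw [Matrix.mul_apply] at h1
      exact h1
    have h0 : (0 : ℤ) ≤ m * a * b := by positivity
    calc |X i j| ≤ G.det * |X i j| := by
          exact le_mul_of_one_le_left (abs_nonneg _) hdet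
      _ = |G.det * X i j| := by
          rw [abs_mul, abs_of_nonneg (show (0 : ℤ) ≤ G.det by omega)]
      _ ≤ n * ((m * a * b) * ((n.factorial : ℤ) * (m * a ^ 2) ^ n)) := by
          rw [hXe]
          exact abs_sum_mul_le _ _ _ _ h0 (hBA i) (fun l => hadj l j)
      _ = _ := by ring

end Pool.Agent.LAT.H80
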