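import Pool.Agent.LAT.StmtsW

/-!
# Squad LAT, row WDC: words of integers of fixed width (helper80)
-/

set_option autoImplicit false

namespace Pool.Agent.LAT.H80

open Pool.Agent.PAR Matrix Pool.Agent.LAT

section fm

variable {α : Type} (g : ℕ → List α) (l : ℕ) (hg : ∀ i, (g i).length = l)

include hg

theorem fm_length (c : ℕ) : ((List.range c).flatMap g).length = c * l := by
  induction c with
  | zero => simp
  | succ c ih =>
    rw [List.range_succ, List.flatMap_append, List.length_append, ih, List.flatMap_singleton, hg]
    ring

theorem fm_piece (c i : ℕ) (hi : i < c) :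
    (((List.range c).flatMap g).drop (i * l)).take l = g i := by
  induction c with
  | zero => omega
  | succ c ih =>
    have hF := fm_length g l hg c
    rw [List.range_succ, List.flatMap_append, List.flatMap_singleton]
    rcases Nat.lt_succ_iff_lt_or_eq.1 hi with h | h
    · have h1 : (i + 1) * l ≤ c * l := Nat.mul_le_mul_right l h
      rw [Nat.add_mul, Nat.one_mul] at h1
      rw [List.drop_append_of_le_length (by rw [hF]; omega),
        List.take_append_of_le_length (by rw [List.length_drop, hF]; omega)]
      exact ih h
    · subst h
      rw [List.drop_append_of_le_length (by rw [hF]), List.drop_of_length_le (by rw [hF]),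
        List.nil_append]
      exact List.take_of_length_le (by rw [hg])

end fm

theorem fm_decomp {α : Type} (l c : ℕ) (y : List α) (hy : y.length = c * l) :
    y = (List.range c).flatMap fun i => (y.drop (i * l)).take l := by
  induction c generalizing y with
  | zero =>
    rw [Nat.zero_mul, List.length_eq_zero_iff] at hy
    rw [hy]
    rfl
  | succ c ih =>
    rw [Nat.add_mul, Nat.one_mul] at hy
    have h1 := ih (y.take (c * l)) (by rw [List.length_take, hy]; omega)
    rw [List.range_succ, List.flatMap_append, List.flatMap_singleton]
    have h2 : (List.range c).flatMap (fun i => ((y.take (c * l)).drop (i * l)).take l) =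
        (List.range c).flatMap (fun i => (y.drop (i * l)).take l) := by
      refine List.flatMap_congr fun i hi => ?_
      have hi' : i < c := List.mem_range.1 hi
      have h3 : (i + 1) * l ≤ c * l := Nat.mul_le_mul_right l hi'
      rw [Nat.add_mul, Nat.one_mul] at h3
      rw [List.drop_take, List.take_take, Nat.min_eq_left (by omega)]
    have h3 : (y.drop (c * l)).take l = y.drop (c * l) :=
      List.take_of_length_le (by rw [List.length_drop, hy]; omega)
    rw [← h2, ← h1, h3, List.take_append_drop]

theorem bits_length (w : ℕ) (z : ℤ) : (bits w z).length = w := by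
  unfold bits
  rw [List.length_map, List.length_range]

/-- WDC -/
theorem wdc (wda : WdaStmt) (wdb : WdbStmt) : WdcStmt := by
  intro c S
  have hlen : ∀ f : ℕ → ℤ, (tw c S f).length = c * (S + 1) := fun f =>
    fm_length (fun i => bits (S + 1) (f i)) (S + 1) (fun i => bits_length _ _) c
  refine ⟨hlen, ?_, ?_⟩
  · intro f i hi h1 h2
    unfold num tw
    rw [fm_piece (fun i => bits (S + 1) (f i)) (S + 1) (fun i => bits_length _ _) c i hi]
    exact wda S (f i) h1 h2
  · intro y hy
    have hpl : ∀ i < c, ((y.drop (i * (S + 1))).take (S + 1)).length = S + 1 := by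
      intro i hi
      have h3 : (i + 1) * (S + 1) ≤ c * (S + 1) := Nat.mul_le_mul_right (S + 1) hi
      rw [Nat.add_mul, Nat.one_mul] at h3
      rw [List.length_take, List.length_drop, hy]
      omega
    constructor
    · have h1 := fm_decomp (S + 1) c y hy
      unfold tw
      conv_lhs => rw [h1]
      refine List.flatMap_congr fun i hi => ?_
      have hi' : i < c := List.mem_range.1 hi
      exact ((wdb _ S (hpl i hi')).1).symm
    · intro i hi
      exact (wdb _ S (hpl i hi)).2

end Pool.Agent.LAT.H80
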