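import Pool.Agent.LAT.StmtsC

/-!
# Squad LAT, row NPL: the nearest plane algorithm (helper80)
-/

set_option autoImplicit false

namespace Pool.Agent.LAT.H80

open Matrix Pool.Agent.LAT

theorem sq_add_orth {m : ℕ} (x y : Fin m → ℝ) (h : x ⬝ᵥ y = 0) : sq (x + y) = sq x + sq y := by
  unfold sq
  rw [add_dotProduct, dotProduct_add, dotProduct_add, dotProduct_comm y x, h]
  ring

theorem sq_nonneg' {m : ℕ} (x : Fin m → ℝ) : 0 ≤ sq x := by
  unfold sq dotProduct
  exact Finset.sum_nonneg fun i _ => mul_self_nonneg _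

theorem sq_smul {m : ℕ} (t : ℝ) (x : Fin m → ℝ) : sq (t • x) = t ^ 2 * sq x := by
  unfold sq
  rw [smul_dotProduct, dotProduct_smul, smul_eq_mul, smul_eq_mul]
  ring

/-- NPL -/
theorem npl (prj : PrjStmt) : NplStmt := by
  intro m r w β
  induction r with
  | zero =>
    intro _ p hp
    have h0 : (fun j => rv (w j)) '' {j : ℕ | j < 0} = ∅ := by
      ext x
      simp
    rw [h0, Submodule.span_empty, Submodule.mem_bot] at hp
    refine ⟨fun _ => 0, ?_⟩
    rw [hp]
    simp [sq]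
  | succ r ih =>
    intro hβ p hp
    obtain ⟨V, hV⟩ : ∃ V, V = Submodule.span ℝ ((fun j => rv (w j)) '' {j : ℕ | j < r}) :=
      ⟨_, rfl⟩
    have hins : (fun j => rv (w j)) '' {j : ℕ | j < r + 1} =
        insert (rv (w r)) ((fun j => rv (w j)) '' {j : ℕ | j < r}) := by
      have h1 : {j : ℕ | j < r + 1} = insert r {j : ℕ | j < r} := by
        ext j
        simp only [Set.mem_setOf_eq, Set.mem_insert_iff]
        omega
      rw [h1, Set.image_insert_eq]
    rw [hins, Submodule.mem_span_insert] at hp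
    obtain ⟨t, y, hy, hpe⟩ := hp
    rw [← hV] at hy
    obtain ⟨P, hP, hPo⟩ := prj m V (rv (w r))
    obtain ⟨w', hw'⟩ : ∃ w', w' = rv (w r) - P := ⟨_, rfl⟩
    rw [← hw'] at hPo
    have hwβ : sq w' ≤ β r := by
      obtain ⟨q, hq, hqβ⟩ := hβ r (Nat.lt_succ_self r)
      rw [← hV] at hq
      have h1 : rv (w r) - q = w' + (P - q) := by
        rw [hw']
        abel
      rw [h1, sq_add_orth _ _ (hPo _ (V.sub_mem hP hq))] at hqβ
      have h2 := sq_nonneg' (P - q)
      linarith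
    obtain ⟨δ, hδ⟩ : ∃ δ : ℝ, δ = t - (round t : ℤ) := ⟨_, rfl⟩
    have hδ2 : δ ^ 2 ≤ 1 / 4 := by
      have h1 : |δ| ≤ 1 / 2 := by
        rw [hδ]
        exact abs_sub_round t
      have h2 : |δ| ^ 2 ≤ (1 / 2) ^ 2 := pow_le_pow_left₀ (abs_nonneg _) h1 2
      rw [sq_abs] at h2
      linarith
    have hp' : y + δ • P ∈ V := V.add_mem hy (V.smul_mem _ hP)
    obtain ⟨c, hc⟩ := ih (fun i hi => hβ i (Nat.lt_succ_of_lt hi)) (y + δ • P) (by
      rw [← hV]
      exact hp')
    refine ⟨Function.update c r (round t), ?_⟩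
    have hsum : ∑ j ∈ Finset.range (r + 1), ((Function.update c r (round t) j : ℤ) : ℝ) • rv (w j) =
        ∑ j ∈ Finset.range r, (c j : ℝ) • rv (w j) + ((round t : ℤ) : ℝ) • rv (w r) := by
      rw [Finset.sum_range_succ, Function.update_self]
      congr 1
      refine Finset.sum_congr rfl fun j hj => ?_
      have h1 : j ≠ r := (Finset.mem_range.1 hj).ne
      rw [Function.update_of_ne h1]
    have hVs : ∑ j ∈ Finset.range r, (c j : ℝ) • rv (w j) ∈ V := by
      refine V.sum_mem fun j hj => V.smul_mem _ ?_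
      rw [hV]
      exact Submodule.subset_span ⟨j, Finset.mem_range.1 hj, rfl⟩
    obtain ⟨S₀, hS⟩ : ∃ S, S = ∑ j ∈ Finset.range r, (c j : ℝ) • rv (w j) := ⟨_, rfl⟩
    rw [← hS] at hsum hVs hc
    have hdec : p - (S₀ + ((round t : ℤ) : ℝ) • rv (w r)) = (y + δ • P - S₀) + δ • w' := by
      rw [hpe, hw', hδ]
      module
    rw [hsum, hdec, sq_add_orth, sq_smul, Finset.sum_range_succ]
    · have h1 := sq_nonneg' w'
      have h2 : δ ^ 2 * sq w' ≤ 1 / 4 * β r :=
        mul_le_mul hδ2 hwβ h1 (by norm_num)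
      linarith
    · rw [dotProduct_smul, dotProduct_comm, hPo _ (V.sub_mem hp' hVs), smul_zero]

end Pool.Agent.LAT.H80
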